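import Pool.Agent.H7.LP.Targets

/-!
Row CJP of the board lpg_modules: conjugates of pieces and of tight groups.
-/

set_option autoImplicit false

open Set Filter Topology

namespace Pool.Agent.H79.LPG

open Pool.Agent.H7.LP

theorem pf_CJP : T_CJP := by
  intro G _ _ _ g R K H
  have hcont : Continuous (fun a : G => g * a * g⁻¹) := by fun_prop
  have hcont' : Continuous (fun a : G => g⁻¹ * a * g) := by fun_prop
  refine ⟨fun hP => ?_, fun hT => ?_, fun hK => ?_⟩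
  · refine ⟨hP.op.preimage hcont, hP.cl.preimage hcont, fun a ha => ?_, fun h hh r hr => ?_, ?_⟩
    · rw [mem_cj] at ha ⊢
      exact hP.le ha
    · rw [mem_cj] at hh hr ⊢
      have h1 := hP.nor _ hh _ hr
      have e : g * h * g⁻¹ * (g * r * g⁻¹) * (g * h * g⁻¹)⁻¹ = g * (h * r * h⁻¹) * g⁻¹ := by
        group
      rwa [e] at h1
    · obtain ⟨C, hC, hC2⟩ := hP.lc
      refine ⟨(fun a : G => g⁻¹ * a * g) '' C, hC.image hcont', ?_⟩
      have h1 : (fun a : G => g * a * g⁻¹) ⁻¹' {b : G | ∃ c ∈ C, c⁻¹ * b ∈ R} ∈ 𝓝 (1 : G) := by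
        apply hcont.continuousAt.preimage_mem_nhds
        simpa using hC2
      refine Filter.mem_of_superset h1 ?_
      rintro a ⟨c, hc, hca⟩
      refine ⟨g⁻¹ * c * g, ⟨c, hc, rfl⟩, ?_⟩
      rw [mem_cj]
      have e : g * ((g⁻¹ * c * g)⁻¹ * a) * g⁻¹ = c⁻¹ * (g * a * g⁻¹) := by group
      rw [e]
      exact hca
  · intro K₁ h1 h2 h3
    obtain ⟨U, hU, hU2⟩ := h3
    have hle : R ≤ cj g⁻¹ K₁ := by
      intro r hr
      rw [mem_cj]
      apply h1
      rw [mem_cj]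
      have e : g * (g⁻¹ * r * g⁻¹⁻¹) * g⁻¹ = r := by group
      rwa [e]
    have hle2 : cj g⁻¹ K₁ ≤ K := by
      intro a ha
      rw [mem_cj] at ha
      have h4 := h2 ha
      rw [mem_cj] at h4
      have e : g * (g⁻¹ * a * g⁻¹⁻¹) * g⁻¹ = a := by group
      rwa [e] at h4
    have hop : OpenIn (cj g⁻¹ K₁) K := by
      refine ⟨(fun a : G => g⁻¹ * a * g) ⁻¹' U, ?_, ?_⟩
      · apply hcont'.continuousAt.preimage_mem_nhds
        simpa using hU
      · intro a ha haU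
        rw [mem_cj, inv_inv]
        apply hU2 _ _ haU
        show g⁻¹ * a * g ∈ cj g K
        rw [mem_cj]
        have e : g * (g⁻¹ * a * g) * g⁻¹ = a := by group
        rwa [e]
    obtain ⟨F, hF, hF2⟩ := hT _ hle hle2 hop
    refine ⟨(fun a : G => g⁻¹ * a * g) '' F, hF.image _, fun a ha => ?_⟩
    rw [mem_cj] at ha
    obtain ⟨f, hf, hfa⟩ := hF2 _ ha
    refine ⟨g⁻¹ * f * g, ⟨f, hf, rfl⟩, ?_⟩
    rw [mem_cj] at hfa
    have e : g⁻¹ * (f⁻¹ * (g * a * g⁻¹)) * g⁻¹⁻¹ = (g⁻¹ * f * g)⁻¹ * a := by group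
    rwa [e] at hfa
  · exact hK.preimage hcont

end Pool.Agent.H79.LPG
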